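import Pool.Agent.Run7.h543.DEP.Stm

/-!
# Project DEP (helper543): the piece PRO
-/

set_option autoImplicit false
set_option linter.unusedSectionVars false

noncomputable section

namespace Run7.h957.DEP

open Finset Matrix Run7.h259.BEC Run7.h543.DEP

section
variable {V : Type} [Fintype V] [DecidableEq V]

/-- mixed powers have a constant diagonal -/
lemma diag_mixed {t : V → V → ℝ} {D : ℝ} {m : ℕ} (h : Loc t m) : ∀ k i : ℕ, k + i ≤ m →
    ∀ x y, (walk t D ^ k * lap t ^ i) x x = (walk t D ^ k * lap t ^ i) y y := by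
  intro k
  induction k with
  | zero =>
    intro i hi x y
    rw [pow_zero, one_mul]
    exact h i (by omega) x y
  | succ k ih =>
    intro i hi x y
    have h1 : walk t D ^ (k + 1) * lap t ^ i = walk t D ^ k * lap t ^ i -
        (1 / (2 * D)) • (walk t D ^ k * lap t ^ (i + 1)) := by
      rw [pow_succ (walk t D) k, mul_assoc]
      have h2 : walk t D * lap t ^ i = lap t ^ i - (1 / (2 * D)) • lap t ^ (i + 1) := by
        unfold walk
        rw [sub_mul, one_mul, smul_mul_assoc, ← pow_succ']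
      rw [h2, mul_sub, mul_smul_comm]
    rw [h1]
    simp only [Matrix.sub_apply, Matrix.smul_apply]
    rw [ih i (by omega) x y, ih (i + 1) (by omega) x y]

lemma diag_const {t : V → V → ℝ} {D : ℝ} {m : ℕ} (h : Loc t m) (k : ℕ) (hk : k ≤ m) (x y : V) :
    (walk t D ^ k) x x = (walk t D ^ k) y y := by
  have := diag_mixed (D := D) h k 0 (by omega) x y
  rwa [pow_zero, mul_one] at this

/-- the truncated resolvent -/
def HH (t : V → V → ℝ) (D lam : ℝ) (m : ℕ) : Matrix V V ℝ :=
  (1 / (2 * D + lam)) • ∑ k ∈ range m, (2 * D / (2 * D + lam)) ^ k • walk t D ^ k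

lemma HH_apply (t : V → V → ℝ) (D lam : ℝ) (m : ℕ) (x y : V) :
    HH t D lam m x y = (1 / (2 * D + lam)) *
      ∑ k ∈ range m, (2 * D / (2 * D + lam)) ^ k * (walk t D ^ k) x y := by
  unfold HH
  rw [Matrix.smul_apply, Matrix.sum_apply, smul_eq_mul]
  simp only [Matrix.smul_apply, smul_eq_mul]

lemma HH_eq (t : V → V → ℝ) (D lam : ℝ) (hD : 0 < D) (hW : 0 < 2 * D + lam) (m : ℕ) :
    lap t * HH t D lam m + lam • HH t D lam m =
      1 - (2 * D / (2 * D + lam)) ^ m • walk t D ^ m := by
  set W : ℝ := 2 * D + lam with hWd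
  set q : ℝ := 2 * D / W with hq
  have h1 : lap t + lam • (1 : Matrix V V ℝ) = W • (1 - q • walk t D) := by
    rw [smul_sub, smul_smul]
    have h2 : W * q = 2 * D := by
      rw [hq]
      field_simp
    rw [h2]
    unfold walk
    rw [smul_sub, smul_smul]
    have h3 : 2 * D * (1 / (2 * D)) = 1 := by
      field_simp
    rw [h3, one_smul, hWd, add_smul]
    abel
  have h2 : HH t D lam m = (1 / W) • ∑ k ∈ range m, (q • walk t D) ^ k := by
    unfold HH
    congr 1
    refine Finset.sum_congr rfl fun k _ => ?_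
    rw [smul_pow]
  calc lap t * HH t D lam m + lam • HH t D lam m
      = (lap t + lam • (1 : Matrix V V ℝ)) * HH t D lam m := by
        rw [add_mul, smul_mul_assoc, one_mul]
    _ = (W • (1 - q • walk t D)) * ((1 / W) • ∑ k ∈ range m, (q • walk t D) ^ k) := by
        rw [h1, h2]
    _ = (1 - q • walk t D) * ∑ k ∈ range m, (q • walk t D) ^ k := by
        rw [smul_mul_assoc, mul_smul_comm, smul_smul]
        have h3 : W * (1 / W) = 1 := by field_simp
        rw [h3, one_smul]
    _ = 1 - (q • walk t D) ^ m := mul_neg_geom_sum _ _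
    _ = 1 - q ^ m • walk t D ^ m := by rw [smul_pow]

end

set_option maxHeartbeats 1000000 in
/-- piece PRO -/
theorem t_PRO (hCON : S_CON) (hTRA : S_TRA) : S_PRO := by
  intro D g hD hg lam hlam s hs
  by_cases hgD : g ≤ 2 * D
  swap
  · refine ⟨1, 2, 1, one_pos, ?_⟩
    intro V _ _ t hn ht hgap _
    exact absurd (hCON V t D g hD hg hn ht hgap).2.2.2.2.1 hgD
  have hlam1 := abs_le.1 hlam
  have hW0 : 0 < 2 * D + lam := by linarith [hlam1.1]
  obtain ⟨W, hW⟩ : ∃ W : ℝ, W = 2 * D + lam := ⟨_, rfl⟩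
  rw [← hW] at hW0
  obtain ⟨q, hq⟩ : ∃ q : ℝ, q = 2 * D / W := ⟨_, rfl⟩
  have hq0 : 0 < q := by rw [hq]; positivity
  obtain ⟨θ, hθ⟩ : ∃ θ : ℝ, θ = 1 - g / (2 * D) := ⟨_, rfl⟩
  have hqθ : q * θ = (2 * D - g) / W := by
    rw [hq, hθ]
    field_simp
  have hθ0 : 0 ≤ θ := by
    rw [hθ, sub_nonneg, div_le_one (by positivity)]
    exact hgD
  have hqθ0 : 0 ≤ q * θ := mul_nonneg hq0.le hθ0
  have hqθ1 : q * θ < 1 := by
    rw [hqθ, div_lt_one hW0, hW]
    linarith [hlam1.1]
  have hη : 0 < min (s / (2 * W ^ 2)) (s * g / 4) := by positivity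
  obtain ⟨m', hm'⟩ := exists_pow_lt_of_lt_one hη hqθ1
  obtain ⟨m, hm⟩ : ∃ m, m = m' + 1 := ⟨_, rfl⟩
  have hm1 : 1 ≤ m := by omega
  have hpow : (q * θ) ^ m < min (s / (2 * W ^ 2)) (s * g / 4) := by
    refine lt_of_le_of_lt ?_ hm'
    rw [hm]
    exact pow_le_pow_of_le_one hqθ0 hqθ1.le (Nat.le_succ _)
  have hpow1 := hpow.trans_le (min_le_left _ _)
  have hpow2 := hpow.trans_le (min_le_right _ _)
  have hpow0 : 0 ≤ (q * θ) ^ m := pow_nonneg hqθ0 m
  have hpowle : (q * θ) ^ m ≤ 1 := pow_le_one₀ hqθ0 hqθ1.le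
  obtain ⟨K, hK⟩ : ∃ K : ℝ, K = ∑ k ∈ range m, q ^ k := ⟨_, rfl⟩
  have hK0 : 0 ≤ K := by
    rw [hK]
    exact Finset.sum_nonneg fun k _ => pow_nonneg hq0.le k
  obtain ⟨n1, hn1⟩ := exists_nat_ge (max (2 * W ^ 2 * q ^ (2 * m) / s) (2 * K / (W * s)))
  have hn1a := (le_max_left _ _).trans hn1
  have hn1b := (le_max_right _ _).trans hn1
  refine ⟨m, max n1 2, K + W * q ^ m, by positivity, ?_⟩
  intro V _ _ t hn ht hgap hloc
  have hn2 : 2 ≤ Fintype.card V := (le_max_right _ _).trans hn
  have hnn1 : n1 ≤ Fintype.card V := (le_max_left _ _).trans hn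
  have hnpos : (0 : ℝ) < (Fintype.card V : ℝ) := by
    have : 0 < Fintype.card V := by omega
    exact_mod_cast this
  have hnr : (n1 : ℝ) ≤ (Fintype.card V : ℝ) := by exact_mod_cast hnn1
  obtain ⟨c1, c2, c3, c4, _, _, c7⟩ := hCON V t D g hD hg hn2 ht hgap
  have hne : Nonempty V := Fintype.card_pos_iff.1 (by omega)
  obtain ⟨x0⟩ := hne
  obtain ⟨H, hH⟩ : ∃ H : Matrix V V ℝ, H = HH t D lam m := ⟨_, rfl⟩
  have hHa : ∀ x y, H x y = (1 / W) * ∑ k ∈ range m, q ^ k * (walk t D ^ k) x y := by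
    intro x y
    rw [hH, HH_apply, hq, hW]
  obtain ⟨h, hh⟩ : ∃ h : ℝ, h = H x0 x0 := ⟨_, rfl⟩
  have hdiag : ∀ x, H x x = h := by
    intro x
    rw [hh, hHa, hHa]
    congr 1
    refine Finset.sum_congr rfl fun k hk => ?_
    rw [diag_const hloc k (Finset.mem_range.1 hk).le x x0]
  have hhW : 1 / W ≤ h := by
    rw [hh, hHa]
    have h1 : (1 : ℝ) ≤ ∑ k ∈ range m, q ^ k * (walk t D ^ k) x0 x0 := by
      have h2 := Finset.single_le_sum (f := fun k => q ^ k * (walk t D ^ k) x0 x0)
        (s := range m) (fun k _ => mul_nonneg (pow_nonneg hq0.le k) (c2 k x0 x0))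
        (Finset.mem_range.2 hm1)
      simp only [pow_zero, one_mul, Matrix.one_apply_eq] at h2
      exact h2
    have h3 : 0 < 1 / W := by positivity
    nlinarith
  have hh0 : 0 < h := lt_of_lt_of_le (by positivity) hhW
  have hcW : 1 / h ≤ W := by
    rw [div_le_iff₀ hh0]
    rw [div_le_iff₀ hW0] at hhW
    linarith
  have hc0 : 0 < 1 / h := by positivity
  have hHnn : ∀ x y, 0 ≤ H x y := by
    intro x y
    rw [hHa]
    exact mul_nonneg (by positivity)
      (Finset.sum_nonneg fun k _ => mul_nonneg (pow_nonneg hq0.le k) (c2 k x y))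
  have hHle : ∀ x y, H x y ≤ h := by
    intro x y
    have h1 : 2 * H x y ≤ H x x + H y y := by
      rw [hHa, hHa, hHa, ← mul_add, ← Finset.sum_add_distrib, ← mul_assoc, mul_comm 2 (1 / W),
        mul_assoc, Finset.mul_sum]
      refine mul_le_mul_of_nonneg_left ?_ (by positivity)
      refine Finset.sum_le_sum fun k _ => ?_
      have h2 := mul_le_mul_of_nonneg_left (c4 k x y) (pow_nonneg hq0.le k)
      linarith
    rw [hdiag, hdiag] at h1
    linarith
  have hHs : ∀ x y, H x y = H y x := by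
    intro x y
    rw [hHa, hHa]
    congr 1
    refine Finset.sum_congr rfl fun k _ => ?_
    rw [c1 k x y]
  have hHrow : ∀ x, ∑ y, H x y = (1 / W) * K := by
    intro x
    simp only [hHa]
    rw [← Finset.mul_sum, Finset.sum_comm, hK]
    congr 1
    refine Finset.sum_congr rfl fun k _ => ?_
    rw [← Finset.mul_sum, c3 k x, mul_one]
  have hHeq := HH_eq t D lam hD (by rw [← hW]; exact hW0) m
  rw [← hH, ← hW, ← hq] at hHeq
  refine ⟨1 / h, (1 / h) • H, (1 / h * q ^ m) • walk t D ^ m, hc0, by rw [← hW]; exact hcW, ?_, ?_⟩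
  · constructor
    · intro x
      rw [Matrix.smul_apply, hdiag, smul_eq_mul]
      field_simp
    · intro x y
      rw [Matrix.smul_apply, smul_eq_mul]
      exact mul_nonneg hc0.le (hHnn x y)
    · intro x y
      rw [Matrix.smul_apply, smul_eq_mul, one_div, inv_mul_le_iff₀ hh0, mul_one]
      exact hHle x y
    · intro x y
      rw [Matrix.smul_apply, Matrix.smul_apply, hHs x y]
    · intro x y
      rw [Matrix.smul_apply, Matrix.smul_apply, c1 m x y]
    · intro x y
      rw [Matrix.smul_apply, smul_eq_mul]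
      exact mul_nonneg (mul_nonneg hc0.le (pow_nonneg hq0.le m)) (c2 m x y)
    · intro x
      simp only [Matrix.smul_apply, smul_eq_mul]
      rw [← Finset.mul_sum, hHrow]
      have h1 : 1 / h * (1 / W * K) ≤ K := by
        calc 1 / h * (1 / W * K) ≤ W * (1 / W * K) :=
              mul_le_mul_of_nonneg_right hcW (by positivity)
          _ = K := by field_simp
      have h2 : 0 ≤ W * q ^ m := by positivity
      linarith
    · intro x
      simp only [Matrix.smul_apply, smul_eq_mul]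
      rw [← Finset.mul_sum, c3 m x, mul_one]
      have h1 : 1 / h * q ^ m ≤ W * q ^ m :=
        mul_le_mul_of_nonneg_right hcW (pow_nonneg hq0.le m)
      linarith
    · intro x y
      have h1 := congrFun (congrFun hHeq x) y
      simp only [Matrix.add_apply, Matrix.smul_apply, Matrix.sub_apply, smul_eq_mul,
        Matrix.one_apply] at h1
      rw [mul_smul_comm]
      simp only [Matrix.smul_apply, smul_eq_mul]
      have h2 : 1 / h * (lap t * H) x y + lam * (1 / h * H x y) =
          1 / h * ((lap t * H) x y + lam * H x y) := by ring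
      rw [h2, h1]
      split_ifs <;> ring
    · intro x
      simp only [Matrix.smul_apply, smul_eq_mul]
      have h1 : ∑ y, (1 / h * q ^ m * (walk t D ^ m) x y) ^ 2 =
          (1 / h) ^ 2 * q ^ (2 * m) * (walk t D ^ (2 * m)) x x := by
        have h2 : (walk t D ^ (2 * m)) x x = ∑ y, (walk t D ^ m) x y ^ 2 := by
          rw [two_mul, pow_add, Matrix.mul_apply]
          refine Finset.sum_congr rfl fun y _ => ?_
          rw [c1 m y x]
          ring
        rw [h2, Finset.mul_sum]
        refine Finset.sum_congr rfl fun y _ => ?_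
        ring
      rw [h1]
      have h2 := c7 (2 * m) x
      rw [← hθ] at h2
      have h3 : (1 / h) ^ 2 ≤ W ^ 2 := pow_le_pow_left₀ hc0.le hcW 2
      have h4 : (1 / h) ^ 2 * q ^ (2 * m) * (walk t D ^ (2 * m)) x x ≤
          W ^ 2 * q ^ (2 * m) * (1 / (Fintype.card V : ℝ) + θ ^ (2 * m)) := by
        refine mul_le_mul ?_ h2 (c2 _ _ _) (by positivity)
        exact mul_le_mul_of_nonneg_right h3 (by positivity)
      have h5 : W ^ 2 * q ^ (2 * m) * (1 / (Fintype.card V : ℝ)) ≤ s / 2 := by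
        have h6 : 2 * W ^ 2 * q ^ (2 * m) / s ≤ (Fintype.card V : ℝ) := hn1a.trans hnr
        rw [div_le_iff₀ hs] at h6
        rw [mul_one_div, div_le_iff₀ hnpos]
        linarith
      have h6 : W ^ 2 * q ^ (2 * m) * θ ^ (2 * m) ≤ s / 2 := by
        have h7 : q ^ (2 * m) * θ ^ (2 * m) = ((q * θ) ^ m) ^ 2 := by
          rw [← mul_pow, two_mul, pow_add, pow_two]
        have h8 : ((q * θ) ^ m) ^ 2 ≤ (q * θ) ^ m := by nlinarith
        have h9 : (q * θ) ^ m * (2 * W ^ 2) < s := by
          rwa [lt_div_iff₀ (by positivity)] at hpow1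
        have h10 : 0 < W ^ 2 := by positivity
        calc W ^ 2 * q ^ (2 * m) * θ ^ (2 * m) = W ^ 2 * ((q * θ) ^ m) ^ 2 := by
              rw [mul_assoc, h7]
          _ ≤ W ^ 2 * (q * θ) ^ m := mul_le_mul_of_nonneg_left h8 h10.le
          _ ≤ s / 2 := by linarith
      calc _ ≤ _ := h4
        _ = W ^ 2 * q ^ (2 * m) * (1 / (Fintype.card V : ℝ)) +
            W ^ 2 * q ^ (2 * m) * θ ^ (2 * m) := by ring
        _ ≤ s := by linarith
    · exact hc0.le
  · have h1 := hTRA V t D g hD hg hn2 ht hgap lam hlam m H (by rw [hH]; rfl)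
    have h2 : trace H / (Fintype.card V : ℝ) = 1 / (1 / h) := by
      have h3 : trace H = (Fintype.card V : ℝ) * h := by
        unfold Matrix.trace
        simp only [Matrix.diag_apply, hdiag]
        rw [Finset.sum_const, Finset.card_univ, nsmul_eq_mul]
      rw [h3, one_div_one_div]
      field_simp
    rw [h2, ← hW, ← hq, ← hθ, ← hK] at h1
    have h4 : K / (W * (Fintype.card V : ℝ)) ≤ s / 2 := by
      have h6 : 2 * K / (W * s) ≤ (Fintype.card V : ℝ) := hn1b.trans hnr
      rw [div_le_iff₀ (by positivity)] at h6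
      rw [div_le_iff₀ (by positivity)]
      linarith
    have h5 : 2 * (q * θ) ^ m / g ≤ s / 2 := by
      rw [div_le_iff₀ hg]
      linarith
    linarith

end Run7.h957.DEP
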