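import Pool.Agent.Run7.h957.DEP.TCOa

/-!
# Project DEP (helper543): the piece TCO
-/

set_option autoImplicit false
set_option linter.unusedSectionVars false

noncomputable section

namespace Run7.h957.DEP

open Finset Matrix Run7.h259.BEC Run7.h543.DEP

/-- the row sums of the kernel -/
def BB (D : ℕ) (a : ℝ) (S : ℕ) : ℝ :=
  1 + ∑ r ∈ range S, (D : ℝ) * ((D : ℝ) - 1) ^ r * a ^ (r + 1)

section tree
variable {V : Type} [Fintype V] [DecidableEq V] {Gr : SimpleGraph V} [DecidableRel Gr.Adj]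
  {D R : ℕ}

lemma uu_sum (hSPH : S_SPH) (hD : 3 ≤ D) (hT : IsTreelike Gr D R) (a : ℝ) {S : ℕ} (hS : S ≤ R)
    (x0 : V) : ∑ y, uu Gr a S x0 y = BB D a S := by
  have h1 := sum_sph hSPH hD hT hS (fun r => a ^ r) x0
  simp only [pow_zero] at h1
  exact h1

lemma uu_sq (hSPH : S_SPH) (hD : 3 ≤ D) (hT : IsTreelike Gr D R) {a : ℝ}
    (ha : a * ((D : ℝ) - 1) = 1) {S : ℕ} (hS : S ≤ R)
    (x0 : V) : ∑ y, uu Gr a S x0 y ^ 2 =
      1 + (D : ℝ) / (((D : ℝ) - 1) * ((D : ℝ) - 2)) * (1 - a ^ S) := by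
  have hD' : (3 : ℝ) ≤ D := by exact_mod_cast hD
  have h1 := sum_sph hSPH hD hT hS (fun r => (a ^ r) ^ 2) x0
  have h2 : ∑ y, uu Gr a S x0 y ^ 2 =
      ∑ y, (if Gr.dist x0 y ≤ S then (a ^ Gr.dist x0 y) ^ 2 else 0) := by
    refine Finset.sum_congr rfl fun y _ => ?_
    unfold uu
    split_ifs
    · rfl
    · ring
  rw [h2, h1]
  simp only [pow_zero, one_pow]
  congr 1
  have h3 : ∀ r, (D : ℝ) * ((D : ℝ) - 1) ^ r * (a ^ (r + 1)) ^ 2 = D * a ^ 2 * a ^ r := by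
    intro r
    have : (D : ℝ) * ((D : ℝ) - 1) ^ r * (a ^ (r + 1)) ^ 2 =
        D * a ^ 2 * a ^ r * (a * ((D : ℝ) - 1)) ^ r := by
      rw [mul_pow]
      ring
    rw [this, ha, one_pow, mul_one]
  simp only [h3]
  rw [← Finset.mul_sum]
  have h4 := geom_sum_mul a S
  have h5 : a - 1 ≠ 0 := by
    intro h
    have : a = 1 := by linarith
    rw [this] at ha
    linarith
  have h6 : ∑ r ∈ range S, a ^ r = (a ^ S - 1) / (a - 1) := by
    rw [eq_div_iff h5]
    exact h4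
  have h7 : (D : ℝ) - 1 ≠ 0 := by
    have : (0 : ℝ) < (D : ℝ) - 1 := by linarith
    exact this.ne'
  have h8 : (D : ℝ) - 2 ≠ 0 := by
    have : (0 : ℝ) < (D : ℝ) - 2 := by linarith
    exact this.ne'
  have h9 : a = 1 / ((D : ℝ) - 1) := by
    rw [eq_div_iff h7]
    exact ha
  have h10 : a - 1 = -(((D : ℝ) - 2) / ((D : ℝ) - 1)) := by
    rw [h9]
    field_simp
    ring
  rw [h6, h10]
  have h11 : (D : ℝ) * a ^ 2 = D / ((D : ℝ) - 1) ^ 2 := by
    rw [h9]
    field_simp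
  rw [h11]
  field_simp
  ring

/-- the two estimates at one site -/
lemma key (hRAD : S_RAD) (hSPH : S_SPH) (hD : 3 ≤ D) (hT : IsTreelike Gr D R) {a g : ℝ}
    (hg : 0 < g) (ha0 : 0 < a) (ha : a * ((D : ℝ) - 1) = 1) {S : ℕ} (hS1 : 1 ≤ S) (hS : S < R)
    (hn : 1 ≤ Fintype.card V) (hgap : HasGapT (adjT Gr) g)
    (hs : ∀ x y, green (adjT Gr) x y = green (adjT Gr) y x)
    (hL : ∀ x y, (lap (adjT Gr) * green (adjT Gr)) x y =
      (if x = y then 1 else 0) - 1 / (Fintype.card V : ℝ))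
    (h0 : ∀ x, ∑ y, green (adjT Gr) x y = 0) (x0 : V) :
    |((D : ℝ) - D * a) * green (adjT Gr) x0 x0 - 1| ≤
      Real.sqrt (2 * D * a ^ S) / g + BB D a S / (Fintype.card V : ℝ) ∧
    |((D : ℝ) - D * a) ^ 2 * (∑ y, green (adjT Gr) x0 y * green (adjT Gr) y x0) -
      (1 + (D : ℝ) / (((D : ℝ) - 1) * ((D : ℝ) - 2)))| ≤
      4 * (Real.sqrt (2 * D * a ^ S) / g) + (Real.sqrt (2 * D * a ^ S) / g) ^ 2 +
      BB D a S ^ 2 / (Fintype.card V : ℝ) +
      (D : ℝ) / (((D : ℝ) - 1) * ((D : ℝ) - 2)) * a ^ S := by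
  have hD' : (3 : ℝ) ≤ D := by exact_mod_cast hD
  have hnr : (0 : ℝ) < (Fintype.card V : ℝ) := by exact_mod_cast hn
  obtain ⟨n, hnn⟩ : ∃ n : ℝ, n = (Fintype.card V : ℝ) := ⟨_, rfl⟩
  obtain ⟨c, hc⟩ : ∃ c : ℝ, c = (D : ℝ) - D * a := ⟨_, rfl⟩
  obtain ⟨K, hK⟩ : ∃ K : ℝ, K = (D : ℝ) / (((D : ℝ) - 1) * ((D : ℝ) - 2)) := ⟨_, rfl⟩
  obtain ⟨η, hη⟩ : ∃ η : ℝ, η = Real.sqrt (2 * D * a ^ S) / g := ⟨_, rfl⟩
  obtain ⟨B, hB⟩ : ∃ B : ℝ, B = BB D a S := ⟨_, rfl⟩
  have hη0 : 0 ≤ η := by rw [hη]; positivity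
  have hη2 : η ^ 2 = 2 * D * a ^ S / g ^ 2 := by
    rw [hη, div_pow, Real.sq_sqrt (by positivity)]
  have hK0 : 0 ≤ K := by
    rw [hK]
    have : 0 < ((D : ℝ) - 1) * ((D : ℝ) - 2) := mul_pos (by linarith) (by linarith)
    positivity
  have hK3 : K ≤ 3 := by
    rw [hK, div_le_iff₀ (mul_pos (by linarith) (by linarith))]
    nlinarith
  have hB0 : 0 ≤ B := by
    rw [hB]
    unfold BB
    have : ∀ r ∈ range S, 0 ≤ (D : ℝ) * ((D : ℝ) - 1) ^ r * a ^ (r + 1) := by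
      intro r _
      have h1 : 0 ≤ (D : ℝ) - 1 := by linarith
      positivity
    have := Finset.sum_nonneg this
    linarith
  obtain ⟨u, hu⟩ : ∃ u : V → ℝ, u = uu Gr a S x0 := ⟨_, rfl⟩
  obtain ⟨e, he⟩ : ∃ e : V → ℝ, e = ee Gr a S x0 := ⟨_, rfl⟩
  obtain ⟨w, hw⟩ : ∃ w : V → ℝ, w = fun x => ∑ y, green (adjT Gr) x y * e y := ⟨_, rfl⟩
  have husum : ∑ y, u y = B := by rw [hu, hB]; exact uu_sum hSPH hD hT a hS.le x0
  have husq : ∑ y, u y ^ 2 = 1 + K * (1 - a ^ S) := by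
    rw [hu, hK]
    exact uu_sq hSPH hD hT ha hS.le x0
  have hux : u x0 = 1 := by
    rw [hu]
    unfold uu
    rw [SimpleGraph.dist_self, if_pos (Nat.zero_le _), pow_zero]
  -- the norm of `w`
  have hwsq : ∑ x, w x ^ 2 ≤ η ^ 2 := by
    have h1 := green_op hg adjT_symm hgap hs hL h0 e
    have h2 := ee_sq hSPH hD hT ha0 ha hS1 hS x0
    rw [← he] at h2
    rw [hη2, le_div_iff₀ (by positivity)]
    have h3 : ∑ x, w x ^ 2 = ∑ x, (∑ y, green (adjT Gr) x y * e y) ^ 2 := by rw [hw]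
    rw [h3]
    linarith
  -- the equation
  have heq : ∀ x, w x = c * green (adjT Gr) x x0 - (u x - B / n) := by
    intro x
    have h1 := green_lap adjT_symm hs hL u x
    rw [husum, ← hnn] at h1
    have h2 : ∀ y, ∑ z, lap (adjT Gr) y z * u z = (if y = x0 then c else 0) - e y := by
      intro y
      rw [hu, he, lap_uu hRAD hD hT ha hS1 hS, ← hc]
      congr 1
      have h3 : Gr.dist x0 y = 0 ↔ y = x0 := by
        rw [hT.conn.dist_eq_zero_iff]
        exact eq_comm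
      by_cases h4 : y = x0
      · rw [if_pos h4, if_pos (h3.2 h4)]
      · rw [if_neg h4, if_neg (fun h5 => h4 (h3.1 h5))]
    have h5 : ∀ y, green (adjT Gr) x y * ∑ z, lap (adjT Gr) y z * u z =
        (if y = x0 then green (adjT Gr) x y * c else 0) - green (adjT Gr) x y * e y := by
      intro y
      rw [h2]
      split_ifs <;> ring
    simp only [h5] at h1
    rw [Finset.sum_sub_distrib, Finset.sum_ite_eq', if_pos (Finset.mem_univ x0)] at h1
    have h6 : w x = ∑ y, green (adjT Gr) x y * e y := by rw [hw]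
    rw [h6]
    linarith
  rw [← hnn, ← hc, ← hK, ← hη, ← hB]
  rw [← hnn] at hnr
  have hBn : 0 ≤ B / n := by positivity
  constructor
  · have h1 : |w x0| ≤ η := by
      refine abs_le_of_sq_le_sq ?_ hη0
      refine le_trans ?_ hwsq
      exact Finset.single_le_sum (f := fun x => w x ^ 2) (fun x _ => sq_nonneg _)
        (Finset.mem_univ x0)
    have h2 := heq x0
    rw [hux] at h2
    have h3 := abs_le.1 h1
    rw [abs_le]
    constructor <;> linarith
  · obtain ⟨b, hb⟩ : ∃ b : V → ℝ, b = fun y => u y - B / n := ⟨_, rfl⟩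
    have hbv : ∀ y, b y = u y - B / n := fun y => by rw [hb]
    have hbsq : ∑ y, b y ^ 2 = 1 + K * (1 - a ^ S) - B ^ 2 / n := by
      have h1 : ∀ y, b y ^ 2 = u y ^ 2 - 2 * (B / n) * u y + (B / n) ^ 2 := by
        intro y
        rw [hbv]
        ring
      simp only [h1]
      rw [Finset.sum_add_distrib, Finset.sum_sub_distrib, ← Finset.mul_sum, husum, husq,
        Finset.sum_const, Finset.card_univ, nsmul_eq_mul, ← hnn]
      field_simp
      ring
    have haS : 0 ≤ a ^ S := pow_nonneg ha0.le S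
    have hb4 : ∑ y, b y ^ 2 ≤ 2 ^ 2 := by
      rw [hbsq]
      have h1 : 0 ≤ B ^ 2 / n := by positivity
      have h2 : K * (1 - a ^ S) ≤ K := by nlinarith
      linarith
    have hwb : |∑ y, w y * b y| ≤ 2 * η := by
      refine abs_le_of_sq_le_sq ?_ (by positivity)
      refine (Finset.sum_mul_sq_le_sq_mul_sq Finset.univ w b).trans ?_
      calc (∑ y, w y ^ 2) * ∑ y, b y ^ 2 ≤ η ^ 2 * 2 ^ 2 :=
            mul_le_mul hwsq hb4 (Finset.sum_nonneg fun y _ => sq_nonneg _) (sq_nonneg _)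
        _ = (2 * η) ^ 2 := by ring
    have hG : c ^ 2 * (∑ y, green (adjT Gr) x0 y * green (adjT Gr) y x0) =
        ∑ y, w y ^ 2 + 2 * ∑ y, w y * b y + ∑ y, b y ^ 2 := by
      rw [Finset.mul_sum, Finset.mul_sum, ← Finset.sum_add_distrib, ← Finset.sum_add_distrib]
      refine Finset.sum_congr rfl fun y _ => ?_
      have h1 : c * green (adjT Gr) y x0 = w y + b y := by
        rw [heq, hbv]
        ring
      rw [hs x0 y]
      have h2 : c ^ 2 * (green (adjT Gr) y x0 * green (adjT Gr) y x0) =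
          (c * green (adjT Gr) y x0) ^ 2 := by ring
      rw [h2, h1]
      ring
    have hw0 : 0 ≤ ∑ y, w y ^ 2 := Finset.sum_nonneg fun y _ => sq_nonneg _
    have h1 : 0 ≤ B ^ 2 / n := by positivity
    have h2 : 0 ≤ K * a ^ S := mul_nonneg hK0 haS
    have h3 := abs_le.1 hwb
    rw [hG, hbsq, abs_le]
    constructor <;> nlinarith

end tree

theorem t_TCO (hRAD : S_RAD) (hSPH : S_SPH) (hGRE : S_GRE) : S_TCO := by
  intro D g ε hD hg hε
  have hD' : (3 : ℝ) ≤ D := by exact_mod_cast hD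
  obtain ⟨a, haD⟩ : ∃ a : ℝ, a = 1 / ((D : ℝ) - 1) := ⟨_, rfl⟩
  have hD1 : (0 : ℝ) < (D : ℝ) - 1 := by linarith
  have hD2 : (0 : ℝ) < (D : ℝ) - 2 := by linarith
  have ha0 : 0 < a := by rw [haD]; positivity
  have ha : a * ((D : ℝ) - 1) = 1 := by
    rw [haD]
    field_simp
  have ha1 : a < 1 := by
    rw [haD, div_lt_one hD1]
    linarith
  obtain ⟨c, hc⟩ : ∃ c : ℝ, c = (D : ℝ) - D * a := ⟨_, rfl⟩
  have hcv : c = D * ((D : ℝ) - 2) / ((D : ℝ) - 1) := by
    rw [hc, haD]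
    field_simp
    ring
  have hc0 : 0 < c := by rw [hcv]; positivity
  obtain ⟨K, hK⟩ : ∃ K : ℝ, K = (D : ℝ) / (((D : ℝ) - 1) * ((D : ℝ) - 2)) := ⟨_, rfl⟩
  have hK0 : 0 < K := by rw [hK]; positivity
  have hpow : Filter.Tendsto (fun S : ℕ => a ^ S) Filter.atTop (nhds 0) :=
    tendsto_pow_atTop_nhds_zero_of_lt_one ha0.le ha1
  have hT1 : Filter.Tendsto (fun S : ℕ => Real.sqrt (2 * D * a ^ S) / g) Filter.atTop
      (nhds 0) := by
    have h1 := ((hpow.const_mul (2 * (D : ℝ))).sqrt).div_const g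
    rwa [mul_zero, Real.sqrt_zero, zero_div] at h1
  have hT2 : Filter.Tendsto (fun S : ℕ => K * a ^ S) Filter.atTop (nhds 0) := by
    have h1 := hpow.const_mul K
    rwa [mul_zero] at h1
  have hpos : 0 < min (min (c * ε / 2) 1) (c ^ 2 * ε / 15) := by positivity
  have hpos2 : 0 < c ^ 2 * ε / 3 := by positivity
  obtain ⟨S, ⟨hSa, hSb⟩, hS1⟩ := (((hT1.eventually (ge_mem_nhds hpos)).and
    (hT2.eventually (ge_mem_nhds hpos2))).and (Filter.eventually_ge_atTop 1)).exists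
  obtain ⟨η, hη⟩ : ∃ η : ℝ, η = Real.sqrt (2 * D * a ^ S) / g := ⟨_, rfl⟩
  rw [← hη] at hSa
  have hη0 : 0 ≤ η := by rw [hη]; positivity
  have e1 : η ≤ c * ε / 2 := hSa.trans ((min_le_left _ _).trans (min_le_left _ _))
  have e2 : η ≤ 1 := hSa.trans ((min_le_left _ _).trans (min_le_right _ _))
  have e3 : η ≤ c ^ 2 * ε / 15 := hSa.trans (min_le_right _ _)
  obtain ⟨B, hB⟩ : ∃ B : ℝ, B = BB D a S := ⟨_, rfl⟩
  obtain ⟨n₀, hn₀⟩ := exists_nat_ge (max (2 * B / (c * ε)) (3 * B ^ 2 / (c ^ 2 * ε)))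
  refine ⟨S + 1, max n₀ 1, ?_⟩
  intro V _ _ Gr _ hn hT hgap
  have hn1 : 1 ≤ Fintype.card V := (le_max_right _ _).trans hn
  have hn2 : n₀ ≤ Fintype.card V := (le_max_left _ _).trans hn
  have hnr : (n₀ : ℝ) ≤ (Fintype.card V : ℝ) := by exact_mod_cast hn2
  have hnpos : (0 : ℝ) < (Fintype.card V : ℝ) := by exact_mod_cast hn1
  obtain ⟨g1, g2, g3, _⟩ := hGRE V (adjT Gr) D g (by linarith) hg hn1 (adjT_hop hT) hgap
  have hkey := fun x0 => key hRAD hSPH hD hT hg ha0 ha hS1 (Nat.lt_succ_self S) hn1 hgap g1 g2 g3 x0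
  rw [← hc, ← hK, ← hη, ← hB] at hkey
  obtain ⟨n, hnn⟩ : ∃ n : ℝ, n = (Fintype.card V : ℝ) := ⟨_, rfl⟩
  rw [← hnn] at hnr hnpos hkey
  have f1 : B / n ≤ c * ε / 2 := by
    have h1 : 2 * B / (c * ε) ≤ n := ((le_max_left _ _).trans hn₀).trans hnr
    rw [div_le_iff₀ (by positivity)] at h1
    rw [div_le_iff₀ hnpos]
    linarith
  have f2 : B ^ 2 / n ≤ c ^ 2 * ε / 3 := by
    have h1 : 3 * B ^ 2 / (c ^ 2 * ε) ≤ n := ((le_max_right _ _).trans hn₀).trans hnr
    rw [div_le_iff₀ (by positivity)] at h1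
    rw [div_le_iff₀ hnpos]
    linarith
  have hcard : ∑ _x : V, (1 : ℝ) = n := by
    rw [Finset.sum_const, Finset.card_univ, nsmul_eq_mul, mul_one, hnn]
  constructor
  · have h1 : aa (adjT Gr) = (∑ x, green (adjT Gr) x x) / n := by
      unfold aa
      rw [← hnn]
      rfl
    have h2 : |c * aa (adjT Gr) - 1| ≤ c * ε := by
      have h3 : c * aa (adjT Gr) - 1 = (∑ x, (c * green (adjT Gr) x x - 1)) / n := by
        rw [h1, Finset.sum_sub_distrib, ← Finset.mul_sum, hcard]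
        field_simp
      rw [h3, abs_div, abs_of_pos hnpos, div_le_iff₀ hnpos]
      refine (Finset.abs_sum_le_sum_abs _ _).trans ?_
      have h4 : ∀ x ∈ (Finset.univ : Finset V), |c * green (adjT Gr) x x - 1| ≤ c * ε := by
        intro x _
        refine (hkey x).1.trans ?_
        linarith
      have h5 := Finset.sum_le_card_nsmul _ _ _ h4
      rw [Finset.card_univ, nsmul_eq_mul, ← hnn] at h5
      linarith
    have h3 : ((D : ℝ) - 1) / (D * (D - 2)) = 1 / c := by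
      rw [hcv]
      field_simp
    rw [h3]
    have h4 : aa (adjT Gr) - 1 / c = (c * aa (adjT Gr) - 1) / c := by
      field_simp
    rw [h4, abs_div, abs_of_pos hc0, div_le_iff₀ hc0]
    linarith
  · have h1 : bb (adjT Gr) =
        (∑ x, ∑ y, green (adjT Gr) x y * green (adjT Gr) y x) / n := by
      unfold bb
      rw [← hnn]
      rfl
    have h2 : |c ^ 2 * bb (adjT Gr) - (1 + K)| ≤ c ^ 2 * ε := by
      have h3 : c ^ 2 * bb (adjT Gr) - (1 + K) =
          (∑ x, (c ^ 2 * (∑ y, green (adjT Gr) x y * green (adjT Gr) y x) - (1 + K))) / n := by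
        rw [h1, Finset.sum_sub_distrib, ← Finset.mul_sum, Finset.sum_const, Finset.card_univ,
          nsmul_eq_mul, ← hnn]
        field_simp
      rw [h3, abs_div, abs_of_pos hnpos, div_le_iff₀ hnpos]
      refine (Finset.abs_sum_le_sum_abs _ _).trans ?_
      have h4 : ∀ x ∈ (Finset.univ : Finset V),
          |c ^ 2 * (∑ y, green (adjT Gr) x y * green (adjT Gr) y x) - (1 + K)| ≤ c ^ 2 * ε := by
        intro x _
        refine (hkey x).2.trans ?_
        have : η ^ 2 ≤ η := by nlinarith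
        linarith
      have h5 := Finset.sum_le_card_nsmul _ _ _ h4
      rw [Finset.card_univ, nsmul_eq_mul, ← hnn] at h5
      linarith
    have h3 : (((D : ℝ) - 1) / (D * (D - 2))) ^ 2 * (1 + D / ((D - 1) * (D - 2))) =
        (1 + K) / c ^ 2 := by
      rw [hcv, hK]
      field_simp
    rw [h3]
    have h4 : bb (adjT Gr) - (1 + K) / c ^ 2 = (c ^ 2 * bb (adjT Gr) - (1 + K)) / c ^ 2 := by
      field_simp
    rw [h4, abs_div, abs_of_pos (by positivity : 0 < c ^ 2), div_le_iff₀ (by positivity)]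
    linarith

end Run7.h957.DEP
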