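import Pool.Agent.Run7.h543.DEP.Stm2

/-!
# Project DEP (helper543): the piece TCO, part 1 (vectors, kernels on spheres)
-/

set_option autoImplicit false
set_option linter.unusedSectionVars false

noncomputable section

namespace Run7.h957.DEP

open Finset Matrix Run7.h259.BEC Run7.h543.DEP

section basic
variable {V : Type} [Fintype V] [DecidableEq V]

lemma lap_symm' {t : V → V → ℝ} (ht : ∀ x y, t x y = t y x) (x y : V) : lap t x y = lap t y x := by
  unfold lap
  by_cases h : x = y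
  · subst h
    rfl
  · rw [if_neg h, if_neg (Ne.symm h), ht x y]

lemma lap_vec (t : V → V → ℝ) (u : V → ℝ) (x : V) :
    ∑ y, lap t x y * u y = (∑ z, t x z) * u x - ∑ y, t x y * u y := by
  unfold lap
  have h1 : ∀ y, ((if x = y then ∑ z, t x z else 0) - t x y) * u y =
      (if x = y then (∑ z, t x z) * u y else 0) - t x y * u y := by
    intro y
    split_ifs <;> ring
  simp only [h1]
  rw [Finset.sum_sub_distrib, Finset.sum_ite_eq, if_pos (Finset.mem_univ x)]

lemma form_eq' {t : V → V → ℝ} (ht : ∀ x y, t x y = t y x) (h : V → ℝ) :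
    ∑ x, h x * ∑ y, lap t x y * h y = ∑ x, ∑ y, t x y * (h y - h x) ^ 2 / 2 := by
  have h1 : ∑ x, h x * ∑ y, lap t x y * h y =
      (∑ x, ∑ y, t x y * h x ^ 2) - ∑ x, ∑ y, t x y * (h x * h y) := by
    rw [← Finset.sum_sub_distrib]
    refine Finset.sum_congr rfl fun x _ => ?_
    rw [lap_vec, mul_sub, Finset.sum_mul, Finset.mul_sum, Finset.mul_sum]
    congr 1
    · exact Finset.sum_congr rfl fun y _ => by ring
    · exact Finset.sum_congr rfl fun y _ => by ring
  have h2 : ∑ x, ∑ y, t x y * h x ^ 2 = ∑ x, ∑ y, t x y * h y ^ 2 := by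
    rw [Finset.sum_comm]
    refine Finset.sum_congr rfl fun x _ => Finset.sum_congr rfl fun y _ => ?_
    rw [ht]
  have h3 : ∑ x, ∑ y, t x y * (h y - h x) ^ 2 / 2 = (∑ x, ∑ y, t x y * h y ^ 2) / 2 +
      (∑ x, ∑ y, t x y * h x ^ 2) / 2 - ∑ x, ∑ y, t x y * (h x * h y) := by
    rw [Finset.sum_div, Finset.sum_div, ← Finset.sum_add_distrib, ← Finset.sum_sub_distrib]
    refine Finset.sum_congr rfl fun x _ => ?_
    rw [Finset.sum_div, Finset.sum_div, ← Finset.sum_add_distrib, ← Finset.sum_sub_distrib]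
    refine Finset.sum_congr rfl fun y _ => ?_
    ring
  rw [h1, h3, h2]
  ring

/-- the Green function as an operator -/
lemma green_op {t : V → V → ℝ} {g : ℝ} (hg : 0 < g) (ht : ∀ x y, t x y = t y x)
    (hgap : HasGapT t g) (hs : ∀ x y, green t x y = green t y x)
    (hL : ∀ x y, (lap t * green t) x y = (if x = y then 1 else 0) - 1 / (Fintype.card V : ℝ))
    (h0 : ∀ x, ∑ y, green t x y = 0) (f : V → ℝ) :
    g ^ 2 * ∑ x, (∑ y, green t x y * f y) ^ 2 ≤ ∑ x, f x ^ 2 := by
  obtain ⟨h, hh⟩ : ∃ h : V → ℝ, h = fun x => ∑ y, green t x y * f y := ⟨_, rfl⟩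
  have hsum : ∑ x, h x = 0 := by
    rw [hh]
    simp only
    rw [Finset.sum_comm]
    refine Finset.sum_eq_zero fun y _ => ?_
    rw [← Finset.sum_mul]
    have : ∑ x, green t x y = 0 := by
      rw [← h0 y]
      exact Finset.sum_congr rfl fun x _ => hs x y
    rw [this, zero_mul]
  have hLh : ∀ x, ∑ z, lap t x z * h z = f x - (∑ y, f y) / (Fintype.card V : ℝ) := by
    intro x
    rw [hh]
    simp only
    have h1 : ∑ z, lap t x z * ∑ y, green t z y * f y =
        ∑ y, (∑ z, lap t x z * green t z y) * f y := by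
      simp only [Finset.mul_sum, Finset.sum_mul]
      rw [Finset.sum_comm]
      refine Finset.sum_congr rfl fun y _ => Finset.sum_congr rfl fun z _ => by ring
    rw [h1]
    have h2 : ∀ y, (∑ z, lap t x z * green t z y) * f y =
        (if x = y then f y else 0) - f y / (Fintype.card V : ℝ) := by
      intro y
      have h3 := hL x y
      rw [Matrix.mul_apply] at h3
      rw [h3]
      split_ifs <;> ring
    simp only [h2]
    rw [Finset.sum_sub_distrib, Finset.sum_ite_eq, if_pos (Finset.mem_univ x), Finset.sum_div]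
  have h1 := hgap h hsum
  rw [← form_eq' ht] at h1
  have h2 : ∑ x, h x * ∑ y, lap t x y * h y = ∑ x, h x * f x := by
    simp only [hLh, mul_sub]
    rw [Finset.sum_sub_distrib, ← Finset.sum_mul, hsum, zero_mul, sub_zero]
  rw [h2] at h1
  have h3 := Finset.sum_mul_sq_le_sq_mul_sq Finset.univ h f
  have h4 : 0 ≤ ∑ x, h x ^ 2 := Finset.sum_nonneg fun x _ => sq_nonneg _
  have h5 : 0 ≤ ∑ x, f x ^ 2 := Finset.sum_nonneg fun x _ => sq_nonneg _
  have h6 : (g * ∑ x, h x ^ 2) ^ 2 ≤ (∑ x, h x ^ 2) * ∑ x, f x ^ 2 :=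
    (pow_le_pow_left₀ (by positivity) h1 2).trans h3
  show g ^ 2 * ∑ x, (∑ y, green t x y * f y) ^ 2 ≤ _
  have h7 : ∑ x, (∑ y, green t x y * f y) ^ 2 = ∑ x, h x ^ 2 := by rw [hh]
  rw [h7]
  rcases h4.eq_or_lt with h8 | h8
  · rw [← h8, mul_zero]
    exact h5
  · have h9 : (∑ x, h x ^ 2) * (g ^ 2 * ∑ x, h x ^ 2) ≤ (∑ x, h x ^ 2) * ∑ x, f x ^ 2 := by
      calc _ = (g * ∑ x, h x ^ 2) ^ 2 := by ring
        _ ≤ _ := h6
    exact le_of_mul_le_mul_left h9 h8

/-- `G L u = u - mean u` -/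
lemma green_lap {t : V → V → ℝ} (ht : ∀ x y, t x y = t y x)
    (hs : ∀ x y, green t x y = green t y x)
    (hL : ∀ x y, (lap t * green t) x y = (if x = y then 1 else 0) - 1 / (Fintype.card V : ℝ))
    (u : V → ℝ) (x : V) :
    ∑ y, green t x y * ∑ z, lap t y z * u z = u x - (∑ y, u y) / (Fintype.card V : ℝ) := by
  have h1 : ∑ y, green t x y * ∑ z, lap t y z * u z =
      ∑ z, (∑ y, lap t z y * green t y x) * u z := by
    simp only [Finset.mul_sum, Finset.sum_mul]
    rw [Finset.sum_comm]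
    refine Finset.sum_congr rfl fun z _ => Finset.sum_congr rfl fun y _ => ?_
    rw [hs x y, lap_symm' ht y z]
    ring
  rw [h1]
  have h2 : ∀ z, (∑ y, lap t z y * green t y x) * u z =
      (if z = x then u z else 0) - u z / (Fintype.card V : ℝ) := by
    intro z
    have h3 := hL z x
    rw [Matrix.mul_apply] at h3
    rw [h3]
    split_ifs <;> ring
  simp only [h2]
  rw [Finset.sum_sub_distrib, Finset.sum_ite_eq', if_pos (Finset.mem_univ x), Finset.sum_div]

/-- sums over the balls as sums over the spheres -/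
lemma sum_ball (P : V → Prop) [DecidablePred P] (dd : V → ℕ) (φ : ℕ → ℝ) (S : ℕ) :
    ∑ z, (if P z then (if dd z ≤ S then φ (dd z) else 0) else 0) =
      ∑ r ∈ range (S + 1), ((univ.filter fun z => P z ∧ dd z = r).card : ℝ) * φ r := by
  have h1 : ∀ r, ((univ.filter fun z => P z ∧ dd z = r).card : ℝ) * φ r =
      ∑ z, (if P z ∧ dd z = r then φ r else 0) := by
    intro r
    rw [← Finset.sum_filter, Finset.sum_const, nsmul_eq_mul]
  simp only [h1]
  rw [Finset.sum_comm]
  refine Finset.sum_congr rfl fun z _ => ?_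
  by_cases hP : P z
  · simp only [hP, true_and, if_true]
    rw [Finset.sum_ite_eq]
    simp only [Finset.mem_range, Nat.lt_succ_iff]
  · simp only [hP, false_and, if_false, Finset.sum_const_zero]

end basic

section tree
variable {V : Type} [Fintype V] [DecidableEq V] {Gr : SimpleGraph V} [DecidableRel Gr.Adj]
  {D R : ℕ}

lemma adjT_symm (x y : V) : adjT Gr x y = adjT Gr y x := by
  unfold adjT
  simp only [Gr.adj_comm x y]

lemma adjT_row (hT : IsTreelike Gr D R) (x : V) : ∑ y, adjT Gr x y = D := by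
  unfold adjT
  rw [← Finset.sum_filter, Finset.sum_const, nsmul_eq_mul, mul_one, hT.reg x]

lemma adjT_hop (hT : IsTreelike Gr D R) : IsHopping (adjT Gr) (D : ℝ) where
  symm := adjT_symm
  nonneg := by
    intro x y
    unfold adjT
    split_ifs <;> norm_num
  row := fun x => (adjT_row hT x).le

/-- the kernel on the balls -/
def uu (Gr : SimpleGraph V) (a : ℝ) (S : ℕ) (x0 y : V) : ℝ :=
  if Gr.dist x0 y ≤ S then a ^ Gr.dist x0 y else 0

/-- the error on the spheres -/
def ee (Gr : SimpleGraph V) (a : ℝ) (S : ℕ) (x0 y : V) : ℝ :=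
  (if Gr.dist x0 y = S + 1 then a ^ S else 0) - (if Gr.dist x0 y = S then a ^ S else 0)

lemma sum_nb (hRAD : S_RAD) (hD : 3 ≤ D) (hT : IsTreelike Gr D R) (a : ℝ) {S : ℕ} (hS : S < R)
    (x0 y : V) : ∑ z, adjT Gr y z * uu Gr a S x0 z =
      (if 1 ≤ Gr.dist x0 y ∧ Gr.dist x0 y ≤ S + 1 then a ^ (Gr.dist x0 y - 1) else 0) +
      (if Gr.dist x0 y + 1 ≤ S then
        (if Gr.dist x0 y = 0 then (D : ℝ) else (D : ℝ) - 1) * a ^ (Gr.dist x0 y + 1) else 0) := by
  have h1 : ∀ z, adjT Gr y z * uu Gr a S x0 z =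
      if Gr.Adj y z then (if Gr.dist x0 z ≤ S then a ^ Gr.dist x0 z else 0) else 0 := by
    intro z
    unfold adjT uu
    split_ifs <;> simp
  simp only [h1]
  rw [sum_ball (fun z => Gr.Adj y z) (fun z => Gr.dist x0 z) (fun r => a ^ r) S]
  have h2 : ∀ r ∈ range (S + 1), ((univ.filter fun z => Gr.Adj y z ∧ Gr.dist x0 z = r).card : ℝ) *
      a ^ r = (if Gr.dist x0 y = r + 1 then a ^ r else 0) +
        (if Gr.dist x0 y + 1 = r then (if r = 1 then (D : ℝ) else (D : ℝ) - 1) * a ^ r else 0) := by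
    intro r hr
    rw [Finset.mem_range] at hr
    rw [hRAD V Gr D R (by omega) hT x0 y r (by omega)]
    have h3 : ((D - 1 : ℕ) : ℝ) = (D : ℝ) - 1 := by
      rw [Nat.cast_sub (by omega), Nat.cast_one]
    push_cast
    rw [h3]
    split_ifs <;> ring
  rw [Finset.sum_congr rfl h2, Finset.sum_add_distrib]
  congr 1
  · cases hd : Gr.dist x0 y with
    | zero =>
      rw [if_neg (by omega)]
      refine Finset.sum_eq_zero fun r _ => ?_
      rw [if_neg (by omega)]
    | succ d =>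
      have h3 : ∀ r, (if d + 1 = r + 1 then a ^ r else 0) = if d = r then a ^ r else 0 := by
        intro r
        by_cases h : d = r
        · rw [if_pos (by omega), if_pos h]
        · rw [if_neg (by omega), if_neg h]
      simp only [h3]
      rw [Finset.sum_ite_eq]
      by_cases h : d < S + 1
      · rw [if_pos (Finset.mem_range.2 h), if_pos (by omega), Nat.add_sub_cancel]
      · rw [if_neg (fun h' => h (Finset.mem_range.1 h')), if_neg (by omega)]
  · rw [Finset.sum_ite_eq]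
    by_cases h : Gr.dist x0 y + 1 < S + 1
    · rw [if_pos (Finset.mem_range.2 h), if_pos (show Gr.dist x0 y + 1 ≤ S by omega)]
      by_cases h4 : Gr.dist x0 y = 0
      · rw [if_pos (show Gr.dist x0 y + 1 = 1 by omega), if_pos h4]
      · rw [if_neg (show ¬ Gr.dist x0 y + 1 = 1 by omega), if_neg h4]
    · rw [if_neg (fun h' => h (Finset.mem_range.1 h')),
        if_neg (show ¬ Gr.dist x0 y + 1 ≤ S by omega)]

/-- the equation of the kernel -/
lemma lap_uu (hRAD : S_RAD) (hD : 3 ≤ D) (hT : IsTreelike Gr D R) {a : ℝ}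
    (ha : a * ((D : ℝ) - 1) = 1) {S : ℕ} (hS1 : 1 ≤ S) (hS : S < R) (x0 y : V) :
    ∑ z, lap (adjT Gr) y z * uu Gr a S x0 z =
      (if Gr.dist x0 y = 0 then (D : ℝ) - D * a else 0) - ee Gr a S x0 y := by
  rw [lap_vec, adjT_row hT, sum_nb hRAD hD hT a hS]
  unfold uu ee
  obtain ⟨d, hd⟩ : ∃ d, d = Gr.dist x0 y := ⟨_, rfl⟩
  rw [← hd]
  rcases Nat.eq_zero_or_pos d with h0 | h0
  · subst h0
    simp only [zero_le, if_true, pow_zero, zero_add, pow_one]
    rw [if_neg (by omega), if_pos hS1, if_neg (by omega), if_neg (by omega)]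
    ring
  · obtain ⟨d', rfl⟩ : ∃ d', d = d' + 1 := ⟨d - 1, by omega⟩
    have hda : (D : ℝ) * a = 1 + a := by linarith
    by_cases h1 : d' + 1 + 1 ≤ S
    · rw [if_pos (show d' + 1 ≤ S by omega), if_pos (show 1 ≤ d' + 1 ∧ d' + 1 ≤ S + 1 by omega),
        if_pos h1, if_neg (show ¬ d' + 1 = 0 by omega), if_neg (show ¬ d' + 1 = 0 by omega),
        if_neg (show ¬ d' + 1 = S + 1 by omega), if_neg (show ¬ d' + 1 = S by omega),
        Nat.add_sub_cancel]
      have e1 : (D : ℝ) * a ^ (d' + 1) = a ^ d' * (D * a) := by ring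
      have e2 : ((D : ℝ) - 1) * a ^ (d' + 1 + 1) = a ^ d' * a * (a * ((D : ℝ) - 1)) := by ring
      rw [e1, e2, ha, hda]
      ring
    · by_cases h2 : d' + 1 = S
      · rw [if_pos (show d' + 1 ≤ S by omega), if_pos (show 1 ≤ d' + 1 ∧ d' + 1 ≤ S + 1 by omega),
          if_neg h1, if_neg (show ¬ d' + 1 = 0 by omega),
          if_neg (show ¬ d' + 1 = S + 1 by omega), if_pos h2,
          Nat.add_sub_cancel, ← h2]
        have e1 : (D : ℝ) * a ^ (d' + 1) = a ^ d' * (D * a) := by ring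
        rw [e1, hda]
        ring
      · by_cases h3 : d' + 1 = S + 1
        · rw [if_neg (show ¬ d' + 1 ≤ S by omega),
            if_pos (show 1 ≤ d' + 1 ∧ d' + 1 ≤ S + 1 by omega), if_neg h1,
            if_neg (show ¬ d' + 1 = 0 by omega), if_pos h3, if_neg h2, Nat.add_sub_cancel]
          have : d' = S := by omega
          rw [this]
          ring
        · rw [if_neg (show ¬ d' + 1 ≤ S by omega),
            if_neg (show ¬ (1 ≤ d' + 1 ∧ d' + 1 ≤ S + 1) by omega), if_neg h1,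
            if_neg (show ¬ d' + 1 = 0 by omega), if_neg h3, if_neg h2]
          ring

/-- sums over the whole space -/
lemma sum_sph (hSPH : S_SPH) (hD : 3 ≤ D) (hT : IsTreelike Gr D R)
    {S : ℕ} (hS : S ≤ R) (φ : ℕ → ℝ) (x0 : V) :
    ∑ y, (if Gr.dist x0 y ≤ S then φ (Gr.dist x0 y) else 0) =
      φ 0 + ∑ r ∈ range S, (D : ℝ) * ((D : ℝ) - 1) ^ r * φ (r + 1) := by
  have h1 := sum_ball (fun _ : V => True) (fun y => Gr.dist x0 y) φ S
  simp only [if_true, true_and] at h1
  rw [h1, Finset.sum_range_succ']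
  have h2 : ((univ.filter fun z => Gr.dist x0 z = 0).card : ℝ) = 1 := by
    have h3 : (univ.filter fun z => Gr.dist x0 z = 0) = {x0} := by
      ext z
      rw [Finset.mem_filter, Finset.mem_singleton, hT.conn.dist_eq_zero_iff]
      simp only [Finset.mem_univ, true_and]
      exact eq_comm
    rw [h3, Finset.card_singleton, Nat.cast_one]
  rw [h2, one_mul, add_comm]
  congr 1
  refine Finset.sum_congr rfl fun r hr => ?_
  rw [Finset.mem_range] at hr
  rw [hSPH V Gr D R (by omega) hT x0 r (by omega)]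
  have h3 : ((D - 1 : ℕ) : ℝ) = (D : ℝ) - 1 := by
    rw [Nat.cast_sub (by omega), Nat.cast_one]
  push_cast
  rw [h3]

/-- the size of the error -/
lemma ee_sq (hSPH : S_SPH) (hD : 3 ≤ D) (hT : IsTreelike Gr D R) {a : ℝ}
    (ha0 : 0 < a) (ha : a * ((D : ℝ) - 1) = 1) {S : ℕ} (hS1 : 1 ≤ S) (hS : S < R) (x0 : V) :
    ∑ y, ee Gr a S x0 y ^ 2 ≤ 2 * D * a ^ S := by
  have h1 : ∀ y, ee Gr a S x0 y ^ 2 = (if Gr.dist x0 y = S + 1 then (a ^ S) ^ 2 else 0) +
      (if Gr.dist x0 y = S then (a ^ S) ^ 2 else 0) := by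
    intro y
    unfold ee
    by_cases h1 : Gr.dist x0 y = S + 1
    · rw [if_pos h1, if_neg (show ¬ Gr.dist x0 y = S by omega), if_pos h1,
        if_neg (show ¬ Gr.dist x0 y = S by omega)]
      ring
    · by_cases h2 : Gr.dist x0 y = S
      · rw [if_neg h1, if_pos h2, if_neg h1, if_pos h2]
        ring
      · rw [if_neg h1, if_neg h2, if_neg h1, if_neg h2]
        ring
  simp only [h1]
  rw [Finset.sum_add_distrib, ← Finset.sum_filter, ← Finset.sum_filter, Finset.sum_const,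
    Finset.sum_const, nsmul_eq_mul, nsmul_eq_mul]
  have h2 : ((univ.filter fun z => Gr.dist x0 z = S + 1).card : ℝ) = D * ((D : ℝ) - 1) ^ S := by
    rw [hSPH V Gr D R (by omega) hT x0 S (by omega)]
    push_cast
    rw [Nat.cast_sub (by omega), Nat.cast_one]
  have h3 : ((univ.filter fun z => Gr.dist x0 z = S).card : ℝ) = D * ((D : ℝ) - 1) ^ (S - 1) := by
    obtain ⟨S', rfl⟩ : ∃ S', S = S' + 1 := ⟨S - 1, by omega⟩
    rw [hSPH V Gr D R (by omega) hT x0 S' (by omega), Nat.add_sub_cancel]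
    push_cast
    rw [Nat.cast_sub (by omega), Nat.cast_one]
  rw [h2, h3]
  have hD' : (3 : ℝ) ≤ D := by exact_mod_cast hD
  have h4 : ((D : ℝ) - 1) ^ S * (a ^ S) ^ 2 = a ^ S := by
    have : ((D : ℝ) - 1) ^ S * (a ^ S) ^ 2 = (a * ((D : ℝ) - 1)) ^ S * a ^ S := by
      rw [mul_pow]
      ring
    rw [this, ha, one_pow, one_mul]
  have h5 : ((D : ℝ) - 1) ^ (S - 1) ≤ ((D : ℝ) - 1) ^ S :=
    pow_le_pow_right₀ (by linarith) (by omega)
  have h6 : 0 ≤ (D : ℝ) * (a ^ S) ^ 2 := by positivity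
  have h7 : (D : ℝ) * ((D : ℝ) - 1) ^ (S - 1) * (a ^ S) ^ 2 ≤
      (D : ℝ) * ((D : ℝ) - 1) ^ S * (a ^ S) ^ 2 := by nlinarith
  have h8 : (D : ℝ) * ((D : ℝ) - 1) ^ S * (a ^ S) ^ 2 = D * a ^ S := by
    rw [mul_assoc, h4]
  linarith

end tree

end Run7.h957.DEP
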